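import Mathlib
import Pool.Agent.W771.Base
set_option autoImplicit false
set_option linter.unusedSectionVars false

/-! The weighted square function: the restricted bound. -/

namespace Pool.Agent.Q167.RP

open MeasureTheory Set Complex
open scoped ENNReal NNReal
open Pool.Agent.W771

variable {Λ : Type} [MeasurableSpace Λ]

/-- measurable weights -/
def Wm (β : Λ → ℝ → ℝ → ℝ≥0∞) : Prop := Measurable fun w : Λ × ℝ × ℝ => β w.1 w.2.1 w.2.2

/-- the weighted square function, squared -/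
noncomputable def Ph (ν : Measure Λ) (a : ℝ → Λ → ℂ) (β : Λ → ℝ → ℝ → ℝ≥0∞) (x y t : ℝ) : ℝ≥0∞ :=
  ∫⁻ l, ‖E1 a x t l‖ₑ ^ 2 * β l y t ∂ν

/-- the time profile of a weight -/
noncomputable def Hh (β : Λ → ℝ → ℝ → ℝ≥0∞) (r : ℝ) (l : Λ) (t : ℝ) : ℝ≥0∞ := ∫⁻ y, β l y t ^ r

lemma Hh_meas {β : Λ → ℝ → ℝ → ℝ≥0∞} (hβ : Wm β) (r : ℝ) :
    Measurable fun w : Λ × ℝ => Hh β r w.1 w.2 := by
  unfold Hh
  have h1 : Measurable fun w : (Λ × ℝ) × ℝ => β w.1.1 w.2 w.1.2 ^ r :=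
    (hβ.comp (by fun_prop : Measurable fun w : (Λ × ℝ) × ℝ => (w.1.1, w.2, w.1.2))).pow_const r
  exact h1.lintegral_prod_right'

lemma E1_m {a : ℝ → Λ → ℂ} (ha : Measurable (Function.uncurry a)) (x t : ℝ) :
    Measurable fun l => ‖E1 a x t l‖ₑ ^ 2 := by
  have h := E1_meas a ha
  have h2 : Measurable (fun l : Λ => (((x, t) : ℝ × ℝ), l)) := measurable_const.prodMk measurable_id
  exact (Measurable.comp h h2).enorm.pow_const 2

/-- Jensen's inequality -/
lemma Ph_jensen (ν : Measure Λ) {a : ℝ → Λ → ℂ} (ha : Measurable (Function.uncurry a))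
    {β : Λ → ℝ → ℝ → ℝ≥0∞} (hβ : Wm β) (r : ℝ) (hr : 1 ≤ r) (x y t : ℝ) :
    Ph ν a β x y t ^ r ≤ M2 ν a x t ^ (r - 1) * ∫⁻ l, ‖E1 a x t l‖ₑ ^ 2 * β l y t ^ r ∂ν := by
  have hr0 : 0 < r := by linarith
  have hβm : Measurable fun l => β l y t :=
    hβ.comp (by fun_prop : Measurable fun l : Λ => (l, y, t))
  have h0 : 0 ≤ 1 - 1 / r := by
    rw [sub_nonneg, div_le_one hr0]
    exact hr
  have h1 := ENNReal.lintegral_mul_norm_pow_le (μ := ν) (f := fun l => ‖E1 a x t l‖ₑ ^ 2)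
    (g := fun l => ‖E1 a x t l‖ₑ ^ 2 * β l y t ^ r) (E1_m ha x t).aemeasurable
    ((E1_m ha x t).mul (hβm.pow_const r)).aemeasurable (p := 1 - 1 / r) (q := 1 / r) h0
    (by positivity) (by ring)
  have h2 : ∀ l, ‖E1 a x t l‖ₑ ^ 2 * β l y t = (‖E1 a x t l‖ₑ ^ 2) ^ (1 - 1 / r) *
      (‖E1 a x t l‖ₑ ^ 2 * β l y t ^ r) ^ (1 / r) := by
    intro l
    rw [ENNReal.mul_rpow_of_nonneg _ _ (by positivity), ← mul_assoc,
      ← ENNReal.rpow_add_of_nonneg _ _ h0 (by positivity), ← ENNReal.rpow_mul,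
      mul_one_div_cancel hr0.ne', ENNReal.rpow_one]
    have : 1 - 1 / r + 1 / r = 1 := by ring
    rw [this, ENNReal.rpow_one]
  calc Ph ν a β x y t ^ r = (∫⁻ l, (‖E1 a x t l‖ₑ ^ 2) ^ (1 - 1 / r) *
      (‖E1 a x t l‖ₑ ^ 2 * β l y t ^ r) ^ (1 / r) ∂ν) ^ r := by
        unfold Ph
        simp only [← h2]
    _ ≤ ((∫⁻ l, ‖E1 a x t l‖ₑ ^ 2 ∂ν) ^ (1 - 1 / r) *
        (∫⁻ l, ‖E1 a x t l‖ₑ ^ 2 * β l y t ^ r ∂ν) ^ (1 / r)) ^ r := by
        gcongr
    _ = _ := by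
        rw [ENNReal.mul_rpow_of_nonneg _ _ hr0.le, ← ENNReal.rpow_mul, ← ENNReal.rpow_mul,
          one_div_mul_cancel hr0.ne', ENNReal.rpow_one]
        congr 2
        field_simp

/-- the mass of one component -/
noncomputable def ms (a : ℝ → Λ → ℂ) (l : Λ) : ℝ≥0∞ := ∫⁻ u, ‖a u l‖ₑ ^ 2

lemma comp_planch {a : ℝ → Λ → ℂ} (ha : Measurable (Function.uncurry a)) (A : Set ℝ)
    (hA : MeasurableSet A) (hAI : A ⊆ Icc (-(1 / 2)) (1 / 2)) (hz : ∀ u, u ∉ A → ∀ l, a u l = 0)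
    (t : ℝ) (l : Λ) :
    ∫⁻ x, ‖E1 a x t l‖ₑ ^ 2 ≤ ENNReal.ofReal (2 * Real.pi) * ms a l := by
  have h := M2_planch (Measure.dirac () : Measure Unit) (fun u _ => a u l)
    ((a_meas_u a ha l).comp measurable_fst) A hA hAI (fun u hu _ => hz u hu l) t
  have e1 : ∀ x, M2 (Measure.dirac () : Measure Unit) (fun u _ => a u l) x t =
      ‖E1 a x t l‖ₑ ^ 2 := by
    intro x
    unfold M2 E1
    rw [lintegral_dirac]
  have e2 : ∀ u, N2 (Measure.dirac () : Measure Unit) (fun u _ => a u l) u = ‖a u l‖ₑ ^ 2 := by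
    intro u
    unfold N2
    rw [lintegral_dirac]
  simp only [e1, e2] at h
  exact h

lemma ms_int (ν : Measure Λ) [SFinite ν] {a : ℝ → Λ → ℂ} (ha : Measurable (Function.uncurry a)) :
    ∫⁻ l, ms a l ∂ν = ∫⁻ u, N2 ν a u := by
  have hm : Measurable (fun w : ℝ × Λ => ‖a w.1 w.2‖ₑ ^ 2) :=
    Measurable.pow_const (Measurable.enorm ha) 2
  unfold ms N2
  exact (lintegral_lintegral_swap hm.aemeasurable).symm

/-- **the restricted bound of the weighted square function** -/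
theorem Ph_restr (q δ : ℝ) (hq : 3 < q) (hδ : 0 < δ) (hδq : 2 * δ ≤ q - 3) : ∃ C : ℝ≥0,
    ∀ (Λ : Type) [MeasurableSpace Λ] (ν : Measure Λ) [SFinite ν] (a : ℝ → Λ → ℂ)
      (β : Λ → ℝ → ℝ → ℝ≥0∞),
    Measurable (Function.uncurry a) → Wm β → ∀ A : Set ℝ, MeasurableSet A →
    A ⊆ Icc (-(1 / 2)) (1 / 2) → (∀ u, u ∉ A → ∀ l, a u l = 0) → (∀ u, N2 ν a u ≤ 1) →
    (∀ l, ∫⁻ t, Hh β (q / 2) l t ^ 2 ≤ 1) →
    ∫⁻ t, ∫⁻ x, ∫⁻ y, Ph ν a β x y t ^ (q / 2) ≤ C * volume A ^ (q - 2 - δ) := by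
  obtain ⟨C1, hC1⟩ := ker_Lr (q - 1) δ hδ (by linarith)
  refine ⟨(C1 * (2 * Real.pi).toNNReal) ^ (1 / 2 : ℝ), ?_⟩
  intro Λ _ ν _ a β ha hβ A hA hAI hz hN hH
  have hvA : volume A ≤ 1 := vol_A_le A hAI
  have hM := M2_meas ν a ha
  have hHm := Hh_meas hβ (q / 2)
  have hE := E1_meas a ha
  -- the functions on the product space
  set g : (ℝ × ℝ) × Λ → ℝ≥0∞ := fun w => ‖E1 a w.1.1 w.1.2 w.2‖ₑ ^ 2 with hg
  have hgm : Measurable g := hE.enorm.pow_const 2
  set P : (ℝ × ℝ) × Λ → ℝ≥0∞ := fun w => M2 ν a w.1.1 w.1.2 ^ (q - 2) * g w with hP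
  set R : (ℝ × ℝ) × Λ → ℝ≥0∞ := fun w => g w * Hh β (q / 2) w.2 w.1.2 ^ 2 with hR
  have hM1 : Measurable fun w : (ℝ × ℝ) × Λ => M2 ν a w.1.1 w.1.2 :=
    hM.comp (by fun_prop : Measurable fun w : (ℝ × ℝ) × Λ => w.1)
  have hH1 : Measurable fun w : (ℝ × ℝ) × Λ => Hh β (q / 2) w.2 w.1.2 :=
    hHm.comp (by fun_prop : Measurable fun w : (ℝ × ℝ) × Λ => (w.2, w.1.2))
  have hPm : Measurable P := (hM1.pow_const _).mul hgm
  have hRm : Measurable R := hgm.mul (hH1.pow_const 2)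
  -- the integral in y
  have h1 : ∀ t x, ∫⁻ y, Ph ν a β x y t ^ (q / 2) ≤
      M2 ν a x t ^ (q / 2 - 1) * ∫⁻ l, ‖E1 a x t l‖ₑ ^ 2 * Hh β (q / 2) l t ∂ν := by
    intro t x
    have hym : Measurable fun y => ∫⁻ l, ‖E1 a x t l‖ₑ ^ 2 * β l y t ^ (q / 2) ∂ν := by
      have h2 : Measurable fun w : ℝ × Λ => ‖E1 a x t w.2‖ₑ ^ 2 * β w.2 w.1 t ^ (q / 2) := by
        apply Measurable.mul
        · exact (E1_m ha x t).comp measurable_snd
        · exact (hβ.comp (by fun_prop : Measurable fun w : ℝ × Λ => (w.2, w.1, t))).pow_const _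
      exact h2.lintegral_prod_right'
    calc ∫⁻ y, Ph ν a β x y t ^ (q / 2) ≤ ∫⁻ y, M2 ν a x t ^ (q / 2 - 1) *
        ∫⁻ l, ‖E1 a x t l‖ₑ ^ 2 * β l y t ^ (q / 2) ∂ν :=
          lintegral_mono fun y => Ph_jensen ν ha hβ (q / 2) (by linarith) x y t
      _ = M2 ν a x t ^ (q / 2 - 1) * ∫⁻ y, ∫⁻ l, ‖E1 a x t l‖ₑ ^ 2 * β l y t ^ (q / 2) ∂ν :=
          lintegral_const_mul _ hym
      _ = _ := by
          congr 1
          have h2 : Measurable fun w : ℝ × Λ => ‖E1 a x t w.2‖ₑ ^ 2 * β w.2 w.1 t ^ (q / 2) := by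
            apply Measurable.mul
            · exact (E1_m ha x t).comp measurable_snd
            · exact (hβ.comp (by fun_prop : Measurable fun w : ℝ × Λ => (w.2, w.1, t))).pow_const _
          rw [lintegral_lintegral_swap h2.aemeasurable]
          apply lintegral_congr
          intro l
          have h3 : Measurable fun y => β l y t ^ (q / 2) :=
            (hβ.comp (by fun_prop : Measurable fun y : ℝ => (l, y, t))).pow_const _
          rw [lintegral_const_mul _ h3]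
          rfl
  -- Cauchy–Schwarz
  have h2 : ∫⁻ t, ∫⁻ x, M2 ν a x t ^ (q / 2 - 1) * ∫⁻ l, ‖E1 a x t l‖ₑ ^ 2 *
      Hh β (q / 2) l t ∂ν = ∫⁻ w, P w ^ (1 / 2 : ℝ) * R w ^ (1 / 2 : ℝ) ∂((volume.prod volume).prod ν) := by
    have hPR : Measurable fun w => P w ^ (1 / 2 : ℝ) * R w ^ (1 / 2 : ℝ) :=
      (hPm.pow_const _).mul (hRm.pow_const _)
    rw [lintegral_prod _ hPR.aemeasurable]
    have hin : Measurable fun z : ℝ × ℝ => ∫⁻ l, P (z, l) ^ (1 / 2 : ℝ) * R (z, l) ^ (1 / 2 : ℝ) ∂ν :=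
      hPR.lintegral_prod_right'
    rw [lintegral_prod_symm _ hin.aemeasurable]
    apply lintegral_congr
    intro t
    apply lintegral_congr
    intro x
    have hm3 : Measurable fun l => ‖E1 a x t l‖ₑ ^ 2 * Hh β (q / 2) l t :=
      (E1_m ha x t).mul (hHm.comp (by fun_prop : Measurable fun l : Λ => (l, t)))
    rw [← lintegral_const_mul _ hm3]
    apply lintegral_congr
    intro l
    simp only [hP, hR, hg]
    rw [ENNReal.mul_rpow_of_nonneg _ _ (by norm_num), ENNReal.mul_rpow_of_nonneg _ _ (by norm_num),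
      ← ENNReal.rpow_mul, ← ENNReal.rpow_natCast (Hh β (q / 2) l t), ← ENNReal.rpow_mul,
      ← ENNReal.rpow_natCast ‖E1 a x t l‖ₑ, ← ENNReal.rpow_mul]
    have e1 : (q - 2) * (1 / 2) = q / 2 - 1 := by ring
    have e2 : ((2 : ℕ) : ℝ) * (1 / 2) = 1 := by norm_num
    rw [e1, e2, ENNReal.rpow_one, ENNReal.rpow_one, ENNReal.rpow_natCast]
    ring
  have h3 := ENNReal.lintegral_mul_norm_pow_le (μ := (volume.prod volume).prod ν) (f := P) (g := R)
    hPm.aemeasurable hRm.aemeasurable (p := (1 / 2 : ℝ)) (q := (1 / 2 : ℝ)) (by norm_num)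
    (by norm_num) (by norm_num)
  -- the first factor
  have h4 : ∫⁻ w, P w ∂((volume.prod volume).prod ν) ≤ C1 * volume A ^ (2 * (q - 1) - 3 - 2 * δ) := by
    rw [lintegral_prod _ hPm.aemeasurable]
    have e1 : ∀ z : ℝ × ℝ, ∫⁻ l, P (z, l) ∂ν = M2 ν a z.1 z.2 ^ (q - 1) := by
      intro z
      simp only [hP, hg]
      rw [lintegral_const_mul _ (E1_m ha z.1 z.2)]
      have e : q - 1 = (q - 2) + 1 := by ring
      rw [e, ENNReal.rpow_add_of_nonneg _ _ (by linarith) zero_le_one, ENNReal.rpow_one]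
      rfl
    simp only [e1]
    have hMq : Measurable fun z : ℝ × ℝ => M2 ν a z.1 z.2 ^ (q - 1) := hM.pow_const _
    rw [lintegral_prod_symm _ hMq.aemeasurable]
    simp only [M2_eq ν a ha A hA hAI hz hN]
    apply hC1 A hA hAI (kk ν a) (kk_meas ν a ha)
    · intro p
      have := kk_bound ν a ha hN p
      rw [← ofReal_norm, ENNReal.ofReal_le_one] at this
      exact this
    · exact kk_supp ν a A hz
  -- the second factor
  have h5 : ∫⁻ w, R w ∂((volume.prod volume).prod ν) ≤ ENNReal.ofReal (2 * Real.pi) * volume A := by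
    rw [lintegral_prod_symm _ hRm.aemeasurable]
    have e1 : ∀ l, ∫⁻ z : ℝ × ℝ, R (z, l) ∂(volume.prod volume) ≤
        ENNReal.ofReal (2 * Real.pi) * ms a l := by
      intro l
      have hRl : Measurable fun z : ℝ × ℝ => R (z, l) :=
        hRm.comp (by fun_prop : Measurable fun z : ℝ × ℝ => (z, l))
      rw [lintegral_prod_symm _ hRl.aemeasurable]
      calc ∫⁻ t, ∫⁻ x, R ((x, t), l) ≤ ∫⁻ t, (ENNReal.ofReal (2 * Real.pi) * ms a l) *
          Hh β (q / 2) l t ^ 2 := by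
            apply lintegral_mono
            intro t
            simp only [hR, hg]
            have hx : Measurable fun x => ‖E1 a x t l‖ₑ ^ 2 :=
              (hE.comp (by fun_prop : Measurable fun x : ℝ => ((x, t), l))).enorm.pow_const 2
            rw [lintegral_mul_const _ hx]
            gcongr
            exact comp_planch ha A hA hAI hz t l
        _ = (ENNReal.ofReal (2 * Real.pi) * ms a l) * ∫⁻ t, Hh β (q / 2) l t ^ 2 := by
            have hHl : Measurable fun t : ℝ => Hh β (q / 2) l t ^ 2 :=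
              (hHm.comp (by fun_prop : Measurable fun t : ℝ => (l, t))).pow_const 2
            rw [lintegral_const_mul _ hHl]
        _ ≤ (ENNReal.ofReal (2 * Real.pi) * ms a l) * 1 := by
            gcongr
            exact hH l
        _ = _ := mul_one _
    calc ∫⁻ l, ∫⁻ z : ℝ × ℝ, R (z, l) ∂(volume.prod volume) ∂ν ≤
        ∫⁻ l, ENNReal.ofReal (2 * Real.pi) * ms a l ∂ν := lintegral_mono e1
      _ = ENNReal.ofReal (2 * Real.pi) * ∫⁻ u, N2 ν a u := by
          rw [lintegral_const_mul' _ _ ENNReal.ofReal_ne_top, ms_int ν ha]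
      _ ≤ _ := by
          gcongr
          calc ∫⁻ u, N2 ν a u ≤ ∫⁻ u, A.indicator (fun _ => (1 : ℝ≥0∞)) u := by
                apply lintegral_mono
                intro u
                by_cases hu : u ∈ A
                · simp only
                  rw [indicator_of_mem hu]
                  exact hN u
                · simp only
                  rw [N2_zero ν a A hz u hu]
                  exact zero_le
            _ = volume A := by
                rw [lintegral_indicator hA]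
                simp
  calc ∫⁻ t, ∫⁻ x, ∫⁻ y, Ph ν a β x y t ^ (q / 2) ≤
      ∫⁻ t, ∫⁻ x, M2 ν a x t ^ (q / 2 - 1) * ∫⁻ l, ‖E1 a x t l‖ₑ ^ 2 * Hh β (q / 2) l t ∂ν :=
        lintegral_mono fun t => lintegral_mono fun x => h1 t x
    _ ≤ (C1 * volume A ^ (2 * (q - 1) - 3 - 2 * δ)) ^ (1 / 2 : ℝ) *
        (ENNReal.ofReal (2 * Real.pi) * volume A) ^ (1 / 2 : ℝ) := by
        rw [h2]
        refine h3.trans ?_
        gcongr
    _ = _ := by
        rw [ENNReal.mul_rpow_of_nonneg _ _ (by norm_num), ENNReal.mul_rpow_of_nonneg _ _ (by norm_num),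
          ← ENNReal.rpow_mul]
        have e : q - 2 - δ = (2 * (q - 1) - 3 - 2 * δ) * (1 / 2) + 1 / 2 := by ring
        rw [e, ENNReal.rpow_add_of_nonneg _ _ (by nlinarith) (by norm_num)]
        rw [ENNReal.coe_rpow_of_nonneg _ (by norm_num), ENNReal.coe_mul,
          ENNReal.mul_rpow_of_nonneg _ _ (by norm_num)]
        rw [ENNReal.ofReal]
        ring

end Pool.Agent.Q167.RP
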