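import Mathlib
import Pool.Agent.Q167.RP.One
set_option autoImplicit false
set_option linter.unusedSectionVars false

/-! The weighted square function: the strong bound. -/

namespace Pool.Agent.Q167.RP

open MeasureTheory Set Complex
open scoped ENNReal NNReal
open Pool.Agent.W771

variable {Λ : Type} [MeasurableSpace Λ]

lemma Ph_meas (ν : Measure Λ) [SFinite ν] {a : ℝ → Λ → ℂ} (ha : Measurable (Function.uncurry a))
    {β : Λ → ℝ → ℝ → ℝ≥0∞} (hβ : Wm β) :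
    Measurable fun w : (ℝ × ℝ) × ℝ => Ph ν a β w.1.2 w.2 w.1.1 := by
  unfold Ph
  have h1 : Measurable fun w : ((ℝ × ℝ) × ℝ) × Λ => ‖E1 a w.1.1.2 w.1.1.1 w.2‖ₑ ^ 2 :=
    ((E1_meas a ha).comp (by fun_prop : Measurable fun w : ((ℝ × ℝ) × ℝ) × Λ =>
      ((w.1.1.2, w.1.1.1), w.2))).enorm.pow_const 2
  have h2 : Measurable fun w : ((ℝ × ℝ) × ℝ) × Λ => β w.2 w.1.2 w.1.1.1 :=
    hβ.comp (by fun_prop : Measurable fun w : ((ℝ × ℝ) × ℝ) × Λ => (w.2, w.1.2, w.1.1.1))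
  exact (h1.mul h2).lintegral_prod_right'

/-- iterated integral of a series -/
lemma int3_tsum (c : ℕ → ℝ≥0∞) (G : ℕ → ℝ → ℝ → ℝ → ℝ≥0∞)
    (hG : ∀ k, Measurable fun w : (ℝ × ℝ) × ℝ => G k w.1.1 w.1.2 w.2) :
    ∫⁻ t, ∫⁻ x, ∫⁻ y, ∑' k, c k * G k t x y = ∑' k, c k * ∫⁻ t, ∫⁻ x, ∫⁻ y, G k t x y := by
  have h1 : ∀ k, Measurable fun z : ℝ × ℝ => ∫⁻ y, G k z.1 z.2 y := fun k =>
    (hG k).lintegral_prod_right'
  have h2 : ∀ k, Measurable fun t : ℝ => ∫⁻ x, ∫⁻ y, G k t x y := fun k =>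
    (h1 k).lintegral_prod_right'
  have e1 : ∀ t x, ∫⁻ y, ∑' k, c k * G k t x y = ∑' k, c k * ∫⁻ y, G k t x y := by
    intro t x
    have hy : ∀ k, Measurable fun y => G k t x y := fun k =>
      (hG k).comp (by fun_prop : Measurable fun y : ℝ => ((t, x), y))
    rw [lintegral_tsum fun k => ((hy k).const_mul _).aemeasurable]
    apply tsum_congr
    intro k
    rw [lintegral_const_mul _ (hy k)]
  have e2 : ∀ t, ∫⁻ x, ∑' k, c k * ∫⁻ y, G k t x y = ∑' k, c k * ∫⁻ x, ∫⁻ y, G k t x y := by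
    intro t
    have hx : ∀ k, Measurable fun x => ∫⁻ y, G k t x y := fun k =>
      (h1 k).comp (by fun_prop : Measurable fun x : ℝ => (t, x))
    rw [lintegral_tsum fun k => ((hx k).const_mul _).aemeasurable]
    apply tsum_congr
    intro k
    rw [lintegral_const_mul _ (hx k)]
  simp only [e1, e2]
  rw [lintegral_tsum fun k => ((h2 k).const_mul _).aemeasurable]
  apply tsum_congr
  intro k
  rw [lintegral_const_mul _ (h2 k)]

lemma Ph_le_sum (ν : Measure Λ) [SFinite ν] {a : ℝ → Λ → ℂ} (ha : Measurable (Function.uncurry a))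
    (hz : ∀ u, u ∉ Icc (-(1 / 2) : ℝ) (1 / 2) → ∀ l, a u l = 0)
    (hfin : ∀ᵐ u : ℝ, N2 ν a u < ∞) {β : Λ → ℝ → ℝ → ℝ≥0∞} (hβ : Wm β)
    (C1 : ℝ≥0) (ε : ℝ) (hC1 : ∀ x : ℕ → ℝ≥0∞,
    (∑' k, x k) ^ 2 ≤ C1 * ∑' k : ℕ, (2 : ℝ≥0∞) ^ (ε * (k : ℝ)) * x k ^ 2) (x y t : ℝ) :
    Ph ν a β x y t ≤ C1 * ∑' k : ℕ, (2 : ℝ≥0∞) ^ ((ε + 2) * (k : ℝ)) * Ph ν (pc ν a k) β x y t := by
  have hβm : Measurable fun l => β l y t :=
    hβ.comp (by fun_prop : Measurable fun l : Λ => (l, y, t))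
  have hm : ∀ k, Measurable (fun l => ‖E1 (pc ν a k) x t l‖ₑ ^ 2 * β l y t) := fun k =>
    (E1_m (pc_meas ν a ha k) x t).mul hβm
  calc Ph ν a β x y t ≤ ∫⁻ l, C1 * (∑' k : ℕ, (2 : ℝ≥0∞) ^ (ε * (k : ℝ)) *
      (2 ^ k * ‖E1 (pc ν a k) x t l‖ₑ) ^ 2) * β l y t ∂ν := by
        unfold Ph
        apply lintegral_mono
        intro l
        have := E1_le ν a ha hz hfin x t l
        simp only
        gcongr
        refine le_trans ?_ (hC1 _)
        gcongr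
    _ = ∫⁻ l, C1 * ∑' k : ℕ, (2 : ℝ≥0∞) ^ ((ε + 2) * (k : ℝ)) *
        (‖E1 (pc ν a k) x t l‖ₑ ^ 2 * β l y t) ∂ν := by
        congr 1
        ext l
        rw [mul_assoc, ← ENNReal.tsum_mul_right]
        congr 2
        ext k
        rw [mul_pow, ← mul_assoc, ← mul_assoc]
        congr 2
        rw [← pow_mul, add_mul, two_add, ← ENNReal.rpow_natCast]
        congr 2
        push_cast
        ring
    _ = _ := by
        rw [lintegral_const_mul' _ _ ENNReal.coe_ne_top, lintegral_tsum]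
        · congr 2
          ext k
          rw [lintegral_const_mul _ (hm k)]
          rfl
        · intro k
          exact ((hm k).const_mul _).aemeasurable

/-- **the strong bound of the weighted square function** -/
theorem Ph_strong (q p : ℝ) (hq : 3 < q) (hp0 : 0 < p) (hp : q < p * (q - 2)) : ∃ C : ℝ≥0,
    ∀ (Λ : Type) [MeasurableSpace Λ] (ν : Measure Λ) [SFinite ν] (a : ℝ → Λ → ℂ)
      (β : Λ → ℝ → ℝ → ℝ≥0∞),
    Measurable (Function.uncurry a) → Wm β →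
    (∀ u, u ∉ Icc (-(1 / 2) : ℝ) (1 / 2) → ∀ l, a u l = 0) →
    (∫⁻ u in Icc (-(1 / 2) : ℝ) (1 / 2), N2 ν a u ^ (p / 2) ≤ 1) →
    (∀ l, ∫⁻ t, Hh β (q / 2) l t ^ 2 ≤ 1) →
    ∫⁻ t, ∫⁻ x, ∫⁻ y, Ph ν a β x y t ^ (q / 2) ≤ C := by
  set D : ℝ := p * (q - 2) - q with hD
  have hD0 : 0 < D := by linarith
  set δ : ℝ := min ((q - 3) / 2) (D / (2 * p)) with hδ
  have hδ0 : 0 < δ := lt_min (by linarith) (by positivity)
  have hδ1 : δ ≤ (q - 3) / 2 := min_le_left _ _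
  have hδ2 : δ ≤ D / (2 * p) := min_le_right _ _
  set ε : ℝ := D / (4 * (1 + q / 2)) with hε
  have hε0 : 0 < ε := by positivity
  obtain ⟨C0, hC0⟩ := Ph_restr q δ hq hδ0 (by linarith)
  obtain ⟨C1, hC1⟩ := sum_sq' ε hε0
  obtain ⟨C2, hC2⟩ := sum_pow' (q / 2) ε (by linarith) hε0
  set θ : ℝ := q - 2 - δ with hθ
  have hθ0 : 0 < θ := by linarith
  set s1 : ℝ := ε + (ε + 2) * (q / 2) with hs1
  have hneg : s1 - p * θ < 0 := by
    have e1 : p * δ ≤ D / 2 := by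
      calc p * δ ≤ p * (D / (2 * p)) := by gcongr
        _ = D / 2 := by field_simp
    have e2 : ε * (1 + q / 2) = D / 4 := by
      rw [hε]
      have : 1 + q / 2 ≠ 0 := by linarith
      field_simp
    have e3 : s1 - p * θ = ε * (1 + q / 2) + (p * δ) - D := by
      rw [hs1, hθ, hD]
      ring
    rw [e3, e2]
    linarith
  set C3 : ℝ≥0∞ := (C1 : ℝ≥0∞) ^ (q / 2) * C2 with hC3
  have hC3t : C3 ≠ ∞ := ENNReal.mul_ne_top
    (ENNReal.rpow_ne_top_of_nonneg (by linarith) ENNReal.coe_ne_top) ENNReal.coe_ne_top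
  set T : ℝ≥0∞ := C3 * (C0 * ((2 : ℝ≥0∞) ^ p) ^ θ * ∑' k : ℕ,
    (2 : ℝ≥0∞) ^ ((s1 - p * θ) * (k : ℝ))) with hT
  have hTt : T ≠ ∞ := by
    apply ENNReal.mul_ne_top hC3t
    apply ENNReal.mul_ne_top _ (tsum_two_ne_top _ hneg)
    apply ENNReal.mul_ne_top ENNReal.coe_ne_top
    exact ENNReal.rpow_ne_top_of_nonneg hθ0.le
      (ENNReal.rpow_ne_top_of_nonneg hp0.le (by norm_num))
  refine ⟨T.toNNReal, ?_⟩
  intro Λ _ ν _ a β ha hβ hz hN hH
  rw [ENNReal.coe_toNNReal hTt]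
  have hfin : ∀ᵐ u : ℝ, N2 ν a u < ∞ := by
    have h1 : ∀ᵐ u ∂(volume.restrict (Icc (-(1 / 2) : ℝ) (1 / 2))), N2 ν a u ^ (p / 2) < ∞ := by
      apply ae_lt_top ((N2_meas ν a ha).pow_const _)
      exact ne_top_of_le_ne_top ENNReal.one_ne_top hN
    rw [ae_restrict_iff' measurableSet_Icc] at h1
    filter_upwards [h1] with u hu
    by_cases h : u ∈ Icc (-(1 / 2) : ℝ) (1 / 2)
    · have h2 := hu h
      by_contra hc
      have : N2 ν a u = ∞ := by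
        simpa using hc
      rw [this, ENNReal.top_rpow_of_pos (by positivity)] at h2
      exact absurd h2 (lt_irrefl _)
    · rw [N2_zero ν a (Icc (-(1 / 2) : ℝ) (1 / 2)) hz u h]
      exact ENNReal.zero_lt_top
  -- pointwise
  have hst : ∀ x y t, Ph ν a β x y t ^ (q / 2) ≤ C3 * ∑' k : ℕ, (2 : ℝ≥0∞) ^ (s1 * (k : ℝ)) *
      Ph ν (pc ν a k) β x y t ^ (q / 2) := by
    intro x y t
    calc Ph ν a β x y t ^ (q / 2) ≤ (C1 * ∑' k : ℕ, (2 : ℝ≥0∞) ^ ((ε + 2) * (k : ℝ)) *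
            Ph ν (pc ν a k) β x y t) ^ (q / 2) := by
          apply ENNReal.rpow_le_rpow _ (by linarith)
          exact Ph_le_sum ν ha hz hfin hβ C1 ε hC1 x y t
      _ = C1 ^ (q / 2) * (∑' k : ℕ, (2 : ℝ≥0∞) ^ ((ε + 2) * (k : ℝ)) *
            Ph ν (pc ν a k) β x y t) ^ (q / 2) := ENNReal.mul_rpow_of_nonneg _ _ (by linarith)
      _ ≤ C1 ^ (q / 2) * (C2 * ∑' k : ℕ, (2 : ℝ≥0∞) ^ (ε * (k : ℝ)) *
        ((2 : ℝ≥0∞) ^ ((ε + 2) * (k : ℝ)) * Ph ν (pc ν a k) β x y t) ^ (q / 2)) := by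
          gcongr
          exact hC2 _
      _ = _ := by
          rw [hC3, mul_assoc]
          congr 3
          ext k
          rw [ENNReal.mul_rpow_of_nonneg _ _ (by linarith), ← ENNReal.rpow_mul, ← mul_assoc,
            ← two_add]
          congr 2
          rw [hs1]
          ring
  have hGm : ∀ k, Measurable fun w : (ℝ × ℝ) × ℝ =>
      Ph ν (pc ν a k) β w.1.2 w.2 w.1.1 ^ (q / 2) := fun k =>
    (Ph_meas ν (pc_meas ν a ha k) hβ).pow_const _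
  calc ∫⁻ t, ∫⁻ x, ∫⁻ y, Ph ν a β x y t ^ (q / 2) ≤ ∫⁻ t, ∫⁻ x, ∫⁻ y, ∑' k : ℕ,
      (C3 * (2 : ℝ≥0∞) ^ (s1 * (k : ℝ))) * Ph ν (pc ν a k) β x y t ^ (q / 2) := by
        refine lintegral_mono fun t => lintegral_mono fun x => lintegral_mono fun y => ?_
        simp only
        refine (hst x y t).trans (le_of_eq ?_)
        rw [← ENNReal.tsum_mul_left]
        apply tsum_congr
        intro k
        rw [hC3]
        ring
    _ = ∑' k : ℕ, (C3 * (2 : ℝ≥0∞) ^ (s1 * (k : ℝ))) *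
        ∫⁻ t, ∫⁻ x, ∫⁻ y, Ph ν (pc ν a k) β x y t ^ (q / 2) :=
        int3_tsum (fun k => C3 * (2 : ℝ≥0∞) ^ (s1 * (k : ℝ)))
          (fun k t x y => Ph ν (pc ν a k) β x y t ^ (q / 2)) hGm
    _ ≤ ∑' k : ℕ, (C3 * (2 : ℝ≥0∞) ^ (s1 * (k : ℝ))) *
          (C0 * ((2 : ℝ≥0∞) ^ p * 2 ^ (-p * (k : ℝ))) ^ θ) := by
        gcongr with k
        refine (hC0 Λ ν (pc ν a k) β (pc_meas ν a ha k) hβ (Ly ν a k) (Ly_meas ν a ha k)
          (Ly_sub ν a k) (fun u hu l => pc_zero ν a k u hu l) (pc_N2 ν a ha k) hH).trans ?_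
        gcongr
        exact Ly_vol ν a ha p hp0 hN k
    _ = T := by
        rw [hT, ← ENNReal.tsum_mul_left, ← ENNReal.tsum_mul_left]
        apply tsum_congr
        intro k
        rw [ENNReal.mul_rpow_of_nonneg _ _ hθ0.le, ← ENNReal.rpow_mul (2 : ℝ≥0∞) (-p * (k : ℝ)) θ]
        have e4 : (s1 - p * θ) * (k : ℝ) = s1 * k + -p * k * θ := by ring
        rw [e4, two_add]
        ring

end Pool.Agent.Q167.RP
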