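import Mathlib
import Pool.Agent.Q167.RP.Two
import Pool.Agent.H728R3.SR.F
set_option autoImplicit false
set_option linter.unusedSectionVars false

/-! Random sums of tensors: average over signs. -/

namespace Pool.Agent.Q167.RP

open MeasureTheory Set Complex
open scoped ENNReal NNReal
open Pool.Agent.W771
open Pool.Agent.H728R3.SR (sg khinchine K1)

variable {Λ : Type} [MeasurableSpace Λ]

/-- iterated integral of a finite sum -/
lemma int3_sum {ι : Type} (s : Finset ι) (G : ι → ℝ → ℝ → ℝ → ℝ≥0∞)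
    (hG : ∀ k, Measurable fun w : (ℝ × ℝ) × ℝ => G k w.1.1 w.1.2 w.2) :
    ∫⁻ t, ∫⁻ x, ∫⁻ y, ∑ k ∈ s, G k t x y = ∑ k ∈ s, ∫⁻ t, ∫⁻ x, ∫⁻ y, G k t x y := by
  have h1 : ∀ k, Measurable fun z : ℝ × ℝ => ∫⁻ y, G k z.1 z.2 y := fun k =>
    (hG k).lintegral_prod_right'
  have h2 : ∀ k, Measurable fun t : ℝ => ∫⁻ x, ∫⁻ y, G k t x y := fun k =>
    (h1 k).lintegral_prod_right'
  have e1 : ∀ t x, ∫⁻ y, ∑ k ∈ s, G k t x y = ∑ k ∈ s, ∫⁻ y, G k t x y := by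
    intro t x
    exact lintegral_finsetSum _ fun k _ =>
      (hG k).comp (by fun_prop : Measurable fun y : ℝ => ((t, x), y))
  have e2 : ∀ t, ∫⁻ x, ∑ k ∈ s, ∫⁻ y, G k t x y = ∑ k ∈ s, ∫⁻ x, ∫⁻ y, G k t x y := by
    intro t
    exact lintegral_finsetSum _ fun k _ =>
      (h1 k).comp (by fun_prop : Measurable fun x : ℝ => (t, x))
  simp only [e1, e2]
  exact lintegral_finsetSum _ fun k _ => h2 k

/-- iterated integral of a multiple -/
lemma int3_mul {c : ℝ≥0∞} (hc : c ≠ ∞) (G : ℝ → ℝ → ℝ → ℝ≥0∞) :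
    ∫⁻ t, ∫⁻ x, ∫⁻ y, c * G t x y = c * ∫⁻ t, ∫⁻ x, ∫⁻ y, G t x y := by
  have e1 : ∀ t x, ∫⁻ y, c * G t x y = c * ∫⁻ y, G t x y := fun t x => lintegral_const_mul' _ _ hc
  have e2 : ∀ t, ∫⁻ x, c * ∫⁻ y, G t x y = c * ∫⁻ x, ∫⁻ y, G t x y := fun t =>
    lintegral_const_mul' _ _ hc
  simp only [e1, e2]
  exact lintegral_const_mul' _ _ hc

/-- the joint index space -/
noncomputable def nn (N : ℕ) (ν : Measure Λ) : Measure (Fin N × Λ) :=
  (Measure.count : Measure (Fin N)).prod ν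

instance (N : ℕ) (ν : Measure Λ) [SFinite ν] : SFinite (nn N ν) := by
  unfold nn
  infer_instance

/-- the joint function -/
def jj {N : ℕ} (a : Fin N → ℝ → Λ → ℂ) (u : ℝ) (z : Fin N × Λ) : ℂ := a z.1 u z.2

lemma jj_meas {N : ℕ} {a : Fin N → ℝ → Λ → ℂ} (ha : ∀ k, Measurable (Function.uncurry (a k))) :
    Measurable (Function.uncurry (jj a)) := by
  have h1 : Measurable fun w : Fin N × (ℝ × Λ) => a w.1 w.2.1 w.2.2 :=
    measurable_from_prod_countable_right fun k => ha k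
  exact h1.comp (by fun_prop : Measurable fun w : ℝ × (Fin N × Λ) => (w.2.1, (w.1, w.2.2)))

lemma nn_int {N : ℕ} (ν : Measure Λ) [SFinite ν] (f : Fin N → Λ → ℝ≥0∞)
    (hf : ∀ k, Measurable (f k)) : ∫⁻ z, f z.1 z.2 ∂(nn N ν) = ∑ k, ∫⁻ l, f k l ∂ν := by
  have h1 : Measurable fun z : Fin N × Λ => f z.1 z.2 := measurable_from_prod_countable_right hf
  unfold nn
  rw [lintegral_prod _ h1.aemeasurable, lintegral_count, tsum_fintype]

lemma jj_N2 {N : ℕ} (ν : Measure Λ) [SFinite ν] {a : Fin N → ℝ → Λ → ℂ}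
    (ha : ∀ k, Measurable (Function.uncurry (a k))) (u : ℝ) :
    N2 (nn N ν) (jj a) u = ∑ k, N2 ν (a k) u := by
  unfold N2 jj
  exact nn_int ν (fun k l => ‖a k u l‖ₑ ^ 2) fun k => (a_meas_l (a k) (ha k) u).enorm.pow_const 2

/-- the joint weight -/
noncomputable def bw {N : ℕ} (ν : Measure Λ) (c : ℝ≥0∞) (b : Fin N → ℝ → Λ → ℂ)
    (z : Fin N × Λ) (y t : ℝ) : ℝ≥0∞ := c * M2 ν (b z.1) y t

section
attribute [local irreducible] M2 EE

lemma bw_meas {N : ℕ} (ν : Measure Λ) [SFinite ν] (c : ℝ≥0∞) {b : Fin N → ℝ → Λ → ℂ}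
    (hb : ∀ k, Measurable (Function.uncurry (b k))) : Wm (bw ν c b) := by
  have h0 : ∀ k, Measurable fun z : ℝ × ℝ => M2 ν (b k) z.1 z.2 := fun k => M2_meas ν (b k) (hb k)
  have h1 : Measurable fun w : Fin N × (ℝ × ℝ) => M2 ν (b w.1) w.2.1 w.2.2 :=
    measurable_from_prod_countable_right h0
  have h3 : Measurable fun w : (Fin N × Λ) × ℝ × ℝ => ((w.1.1, (w.2.1, w.2.2)) : Fin N × (ℝ × ℝ)) := by
    fun_prop
  have h2 : Measurable fun w : (Fin N × Λ) × ℝ × ℝ => M2 ν (b w.1.1) w.2.1 w.2.2 := h1.comp h3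
  unfold Wm bw
  exact h2.const_mul c

lemma EE_m3 {H : ℝ × ℝ → ℂ} (hH : Measurable H) :
    Measurable fun w : (ℝ × ℝ) × ℝ => EE H w.1.2 w.2 w.1.1 := by
  have h3 : Measurable fun w : (ℝ × ℝ) × ℝ => ((w.1.2, w.2, w.1.1) : ℝ × ℝ × ℝ) := by fun_prop
  exact (EE_meas H hH).comp h3

end

lemma jj_Ph {N : ℕ} (ν : Measure Λ) [SFinite ν] (c : ℝ≥0∞) {a b : Fin N → ℝ → Λ → ℂ}
    (ha : ∀ k, Measurable (Function.uncurry (a k))) (x y t : ℝ) :
    Ph (nn N ν) (jj a) (bw ν c b) x y t = ∑ k, M2 ν (a k) x t * (c * M2 ν (b k) y t) := by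
  have h1 := nn_int ν (fun k l => ‖E1 (a k) x t l‖ₑ ^ 2 * (c * M2 ν (b k) y t)) fun k =>
    (E1_m (ha k) x t).mul_const _
  have h2 : Ph (nn N ν) (jj a) (bw ν c b) x y t =
      ∫⁻ z, (fun (k : Fin N) (l : Λ) => ‖E1 (a k) x t l‖ₑ ^ 2 * (c * M2 ν (b k) y t)) z.1 z.2
        ∂(nn N ν) := rfl
  rw [h2, h1]
  apply Finset.sum_congr rfl
  intro k _
  rw [lintegral_mul_const _ (E1_m (ha k) x t)]
  rfl

section

variable (ν : Measure Λ) [SFinite ν] {a b : ℝ → Λ → ℂ}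
  (ha : Measurable (Function.uncurry a)) (hb : Measurable (Function.uncurry b))
  (hza : ∀ u, u ∉ II → ∀ l, a u l = 0) (hzb : ∀ u, u ∉ II → ∀ l, b u l = 0)
  {p : ℝ} (hp : 1 ≤ p) (hNa : ∫⁻ u in II, N2 ν a u ^ (p / 2) ≤ 1)
  (hNb : ∫⁻ u in II, N2 ν b u ^ (p / 2) ≤ 1)

include ha hb hza hzb hp hNa hNb

lemma FF_int : Integrable (FF ν a b) := by
  refine ⟨(FF_meas ν a b ha hb).aestronglyMeasurable, ?_⟩
  unfold HasFiniteIntegral
  calc ∫⁻ w, ‖FF ν a b w‖ₑ ≤ ∫⁻ w : ℝ × ℝ, (N2 ν a w.1) ^ (1 / 2 : ℝ) * (N2 ν b w.2) ^ (1 / 2 : ℝ) :=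
        lintegral_mono fun w => FF_bound ν a b ha hb w
    _ = (∫⁻ u, (N2 ν a u) ^ (1 / 2 : ℝ)) * ∫⁻ v, (N2 ν b v) ^ (1 / 2 : ℝ) := by
        rw [Measure.volume_eq_prod, lintegral_prod_mul
          ((N2_meas ν a ha).pow_const _).aemeasurable ((N2_meas ν b hb).pow_const _).aemeasurable]
    _ ≤ 1 * 1 := by
        gcongr
        · exact N2_s ν a ha hza p (1 / 2) (by norm_num) (by linarith) hNa
        · exact N2_s ν b hb hzb p (1 / 2) (by norm_num) (by linarith) hNb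
    _ < ∞ := by norm_num

end

lemma EE_lin {N : ℕ} (f : Fin N → ℝ × ℝ → ℂ) (hf : ∀ k, Integrable (f k)) (s : Fin N → ℂ)
    (x y t : ℝ) : EE (fun w => ∑ k, s k * f k w) x y t = ∑ k, s k * EE (f k) x y t := by
  unfold EE
  simp only [← integral_const_mul]
  rw [← integral_finsetSum]
  · congr 1
    ext w
    rw [Finset.sum_mul]
    apply Finset.sum_congr rfl
    intro k _
    ring
  · intro k _
    apply Integrable.const_mul
    have hc : Continuous fun w : ℝ × ℝ => ph x t w.1 * ph y t w.2 := by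
      unfold ph
      fun_prop
    refine (hf k).mul_bdd (c := 1) hc.aestronglyMeasurable (ae_of_all _ fun w => ?_)
    rw [norm_mul, ph_norm, ph_norm, mul_one]

/-- **random sums of tensors** -/
theorem rp_avg (q p : ℝ) (hq : 3 < q) (hp1 : 1 ≤ p) (hp : q < p * (q - 2)) :
    ∃ C : ℝ≥0∞, C ≠ ∞ ∧ ∀ (Λ : Type) [MeasurableSpace Λ] (ν : Measure Λ) [SFinite ν] (N : ℕ)
      (a b : Fin N → ℝ → Λ → ℂ),
      (∀ k, Measurable (Function.uncurry (a k))) → (∀ k, Measurable (Function.uncurry (b k))) →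
      (∀ k u, u ∉ II → ∀ l, a k u l = 0) → (∀ k u, u ∉ II → ∀ l, b k u l = 0) →
      (∫⁻ u in II, (∑ k, N2 ν (a k) u) ^ (p / 2) ≤ 1) →
      (∀ k, ∫⁻ u in II, N2 ν (b k) u ^ (p / 2) ≤ 1) →
      ((2 : ℝ≥0∞) ^ N)⁻¹ * ∑ ε : Fin N → Bool, ∫⁻ t, ∫⁻ x, ∫⁻ y,
        ‖EE (fun w => ∑ k, (sg (ε k) : ℂ) * FF ν (a k) (b k) w) x y t‖ₑ ^ q ≤ C := by
  have hp0 : 0 < p := by linarith
  have hq0 : 0 < q := by linarith
  obtain ⟨Cb, hCb⟩ := oneVar q p hq hp0 hp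
  obtain ⟨C, hC⟩ := Ph_strong q p hq hp0 hp
  -- normalisation
  set c0 : ℝ≥0 := (Cb + 1) ^ (-(1 / q)) with hc0
  have hc00 : 0 < c0 := by
    rw [hc0]
    positivity
  set c : ℝ≥0∞ := (c0 : ℝ≥0∞) with hc
  have hc1 : c ≠ 0 := by
    rw [hc]
    exact_mod_cast hc00.ne'
  have hct : c ≠ ∞ := ENNReal.coe_ne_top
  have hcC : c ^ q * Cb ≤ 1 := by
    have h1 : c0 ^ q * Cb ≤ 1 := by
      rw [hc0, ← NNReal.rpow_mul]
      have : -(1 / q) * q = -1 := by field_simp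
      rw [this, NNReal.rpow_neg_one]
      calc (Cb + 1)⁻¹ * Cb ≤ (Cb + 1)⁻¹ * (Cb + 1) := by gcongr; simp
        _ = 1 := inv_mul_cancel₀ (by positivity)
    rw [hc, ← ENNReal.coe_rpow_of_nonneg _ hq0.le]
    exact_mod_cast h1
  set Cf : ℝ≥0∞ := ENNReal.ofReal (K1 q) * (c⁻¹ ^ (q / 2) * C) with hCf
  have hcit : c⁻¹ ≠ ∞ := ENNReal.inv_ne_top.2 hc1
  have hCft : Cf ≠ ∞ := by
    apply ENNReal.mul_ne_top ENNReal.ofReal_ne_top
    exact ENNReal.mul_ne_top (ENNReal.rpow_ne_top_of_nonneg (by linarith) hcit) ENNReal.coe_ne_top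
  refine ⟨Cf, hCft, ?_⟩
  intro Λ _ ν _ N a b ha hb hza hzb hNa hNb
  have hNak : ∀ k, ∫⁻ u in II, N2 ν (a k) u ^ (p / 2) ≤ 1 := by
    intro k
    refine le_trans (lintegral_mono fun u => ?_) hNa
    apply ENNReal.rpow_le_rpow _ (by linarith)
    exact Finset.single_le_sum (f := fun k => N2 ν (a k) u) (fun _ _ => zero_le) (Finset.mem_univ k)
  have hFi : ∀ k, Integrable (FF ν (a k) (b k)) := fun k =>
    FF_int ν (ha k) (hb k) (hza k) (hzb k) hp1 (hNak k) (hNb k)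
  have hFm : ∀ k, Measurable (FF ν (a k) (b k)) := fun k => FF_meas ν (a k) (b k) (ha k) (hb k)
  set Z : Fin N → ℝ → ℝ → ℝ → ℂ := fun k x y t => EE (FF ν (a k) (b k)) x y t with hZ
  have hZm : ∀ k, Measurable fun w : (ℝ × ℝ) × ℝ => Z k w.1.2 w.2 w.1.1 := fun k => EE_m3 (hFm k)
  have hlin : ∀ (ε : Fin N → Bool) x y t,
      EE (fun w => ∑ k, (sg (ε k) : ℂ) * FF ν (a k) (b k) w) x y t =
      ∑ k, (sg (ε k) : ℂ) * Z k x y t := fun ε x y t =>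
    EE_lin (fun k => FF ν (a k) (b k)) hFi _ x y t
  simp only [hlin]
  have hεm : ∀ ε : Fin N → Bool, Measurable fun w : (ℝ × ℝ) × ℝ =>
      ‖∑ k, (sg (ε k) : ℂ) * Z k w.1.2 w.2 w.1.1‖ₑ ^ q := by
    intro ε
    apply Measurable.pow_const
    apply Measurable.enorm
    exact Finset.measurable_sum _ fun k _ => (hZm k).const_mul _
  rw [← int3_sum Finset.univ (fun (ε : Fin N → Bool) t x y =>
    ‖∑ k, (sg (ε k) : ℂ) * Z k x y t‖ₑ ^ q) hεm]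
  -- pointwise
  have hpt : ∀ x y t, ∑ ε : Fin N → Bool, ‖∑ k, (sg (ε k) : ℂ) * Z k x y t‖ₑ ^ q ≤
      (2 ^ N * (ENNReal.ofReal (K1 q) * c⁻¹ ^ (q / 2))) *
        Ph (nn N ν) (jj a) (bw ν c b) x y t ^ (q / 2) := by
    intro x y t
    have h1 := khinchine q hq0 (fun k => Z k x y t)
    rw [Fintype.card_fin] at h1
    refine h1.trans ?_
    rw [mul_assoc, mul_assoc, ← ENNReal.mul_rpow_of_nonneg _ _ (by linarith : 0 ≤ q / 2)]
    have h2 : ∑ k, ‖Z k x y t‖ₑ ^ 2 ≤ c⁻¹ * Ph (nn N ν) (jj a) (bw ν c b) x y t := by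
      rw [jj_Ph ν c ha, Finset.mul_sum]
      apply Finset.sum_le_sum
      intro k _
      have h3 : c⁻¹ * (M2 ν (a k) x t * (c * M2 ν (b k) y t)) = M2 ν (a k) x t * M2 ν (b k) y t := by
        calc c⁻¹ * (M2 ν (a k) x t * (c * M2 ν (b k) y t)) =
            (c⁻¹ * c) * (M2 ν (a k) x t * M2 ν (b k) y t) := by ring
          _ = _ := by rw [ENNReal.inv_mul_cancel hc1 hct, one_mul]
      rw [h3]
      have h4 := EE_one ν (a k) (b k) (ha k) (hb k) (hza k) (hzb k) p hp1 (hNak k) (hNb k) x y t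
      calc ‖Z k x y t‖ₑ ^ 2 ≤ (M2 ν (a k) x t ^ (1 / 2 : ℝ) * M2 ν (b k) y t ^ (1 / 2 : ℝ)) ^ 2 :=
            pow_le_pow_left' h4 2
        _ = _ := by
            rw [mul_pow, ← ENNReal.rpow_natCast, ← ENNReal.rpow_natCast, ← ENNReal.rpow_mul,
              ← ENNReal.rpow_mul]
            norm_num
    gcongr
  have hPh := hC (Fin N × Λ) (nn N ν) (jj a) (bw ν c b) (jj_meas ha) (bw_meas ν c hb)
    (fun u hu z => hza z.1 u hu z.2) (by
      simp only [jj_N2 ν ha]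
      exact hNa) (by
      intro z
      have h1 : ∀ t, Hh (bw ν c b) (q / 2) z t = c ^ (q / 2) * ∫⁻ y, M2 ν (b z.1) y t ^ (q / 2) := by
        intro t
        unfold Hh bw
        rw [← lintegral_const_mul' _ _ (ENNReal.rpow_ne_top_of_nonneg (by linarith) hct)]
        apply lintegral_congr
        intro y
        rw [ENNReal.mul_rpow_of_nonneg _ _ (by linarith)]
      simp only [h1, mul_pow]
      rw [lintegral_const_mul' _ _ (ENNReal.pow_ne_top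
        (ENNReal.rpow_ne_top_of_nonneg (by linarith) hct))]
      have h2 : (c ^ (q / 2)) ^ 2 = c ^ q := by
        rw [← ENNReal.rpow_natCast, ← ENNReal.rpow_mul]
        congr 1
        push_cast
        ring
      rw [h2]
      refine le_trans ?_ hcC
      gcongr
      exact hCb Λ ν (b z.1) (hb z.1) (hzb z.1) (hNb z.1))
  have hKt : (2 : ℝ≥0∞) ^ N * (ENNReal.ofReal (K1 q) * c⁻¹ ^ (q / 2)) ≠ ∞ :=
    ENNReal.mul_ne_top (by simp) (ENNReal.mul_ne_top ENNReal.ofReal_ne_top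
      (ENNReal.rpow_ne_top_of_nonneg (by linarith) hcit))
  have h5 : ∫⁻ t, ∫⁻ x, ∫⁻ y, ∑ ε : Fin N → Bool, ‖∑ k, (sg (ε k) : ℂ) * Z k x y t‖ₑ ^ q ≤
      2 ^ N * Cf := by
    calc _ ≤ ∫⁻ t, ∫⁻ x, ∫⁻ y, (2 ^ N * (ENNReal.ofReal (K1 q) * c⁻¹ ^ (q / 2))) *
          Ph (nn N ν) (jj a) (bw ν c b) x y t ^ (q / 2) :=
          lintegral_mono fun t => lintegral_mono fun x => lintegral_mono fun y => hpt x y t
      _ = (2 ^ N * (ENNReal.ofReal (K1 q) * c⁻¹ ^ (q / 2))) *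
          ∫⁻ t, ∫⁻ x, ∫⁻ y, Ph (nn N ν) (jj a) (bw ν c b) x y t ^ (q / 2) := int3_mul hKt _
      _ ≤ (2 ^ N * (ENNReal.ofReal (K1 q) * c⁻¹ ^ (q / 2))) * C := by
          gcongr
      _ = _ := by
          rw [hCf]
          ring
  calc _ ≤ ((2 : ℝ≥0∞) ^ N)⁻¹ * (2 ^ N * Cf) := mul_le_mul_right h5 _
    _ = _ := by
        rw [← mul_assoc, ENNReal.inv_mul_cancel (by simp) (by simp), one_mul]

end Pool.Agent.Q167.RP
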